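import Mathlib

set_option autoImplicit false

open Filter Topology Set Metric

namespace Pool.Agent.H.MP_760d08_an

variable {X : Type} [NormedAddCommGroup X] [NormedSpace ℝ X]

lemma mem_ball_iff {x : X} : x ∈ closedBall (0 : X) 1 ↔ ‖x‖ ≤ 1 := mem_closedBall_zero_iff

lemma comb_mem {u f : X} (hu : u ∈ closedBall (0 : X) 1) (hf : f ∈ closedBall (0 : X) 1)
    {t : ℝ} (h0 : 0 ≤ t) (h1 : t ≤ 1) : t • u + (1 - t) • f ∈ closedBall (0 : X) 1 :=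
  convex_closedBall (0 : X) 1 hu hf h0 (by linarith) (by ring)

omit [NormedSpace ℝ X] in
lemma norm_sub_le_two {u f : X} (hu : u ∈ closedBall (0 : X) 1) (hf : f ∈ closedBall (0 : X) 1) :
    ‖u - f‖ ≤ 2 := by
  rw [mem_closedBall_zero_iff] at hu hf
  have := norm_sub_le u f
  linarith

variable [UniformConvexSpace X]

lemma uc0 {ε : ℝ} (hε : 0 < ε) : ∃ δ, 0 < δ ∧ ∀ r : ℝ, r ≤ 2 → ∀ a b : X, ‖a‖ ≤ r → ‖b‖ ≤ r →
    ε ≤ ‖a - b‖ → ‖a + b‖ ≤ 2 * r - δ := by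
  obtain ⟨δ, hδ, h⟩ := exists_forall_closed_ball_dist_add_le_two_sub X (half_pos hε)
  refine ⟨δ * (ε / 2), by positivity, fun r hr a b ha hb hab => ?_⟩
  have h2 : ε / 2 ≤ r := by
    have := norm_sub_le a b
    linarith
  have hr0 : 0 < r := by linarith
  have hi : 0 ≤ r⁻¹ := inv_nonneg.2 hr0.le
  have e1 : ‖r⁻¹ • a‖ ≤ 1 := by
    rw [norm_smul_of_nonneg hi, inv_mul_le_iff₀ hr0]; linarith
  have e2 : ‖r⁻¹ • b‖ ≤ 1 := by
    rw [norm_smul_of_nonneg hi, inv_mul_le_iff₀ hr0]; linarith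
  have e3 : ε / 2 ≤ ‖r⁻¹ • a - r⁻¹ • b‖ := by
    rw [← smul_sub, norm_smul_of_nonneg hi, le_inv_mul_iff₀ hr0]
    nlinarith
  have e4 := h e1 e2 e3
  rw [← smul_add, norm_smul_of_nonneg hi, inv_mul_le_iff₀ hr0] at e4
  nlinarith

lemma uc2 {ε : ℝ} (hε : 0 < ε) : ∃ δ, 0 < δ ∧ ∀ a b : X, ‖a‖ ≤ 2 → ‖b‖ ≤ 2 →
    ‖(1 / 2 : ℝ) • a + (1 / 2 : ℝ) • b‖ ^ 2 ≤
      1 / 2 * ‖a‖ ^ 2 + 1 / 2 * ‖b‖ ^ 2 - δ * (‖a - b‖ - ε) := by
  obtain ⟨δ, hδ, h⟩ := uc0 (X := X) hε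
  refine ⟨δ ^ 2 / 64, by positivity, fun a b ha hb => ?_⟩
  have hm : ‖(1 / 2 : ℝ) • a + (1 / 2 : ℝ) • b‖ = 1 / 2 * ‖a + b‖ := by
    rw [← smul_add, norm_smul_of_nonneg (by norm_num)]
  rw [hm]
  have t1 := norm_add_le a b
  have t2 := norm_sub_le a b
  have n1 := norm_nonneg (a + b)
  have n2 := norm_nonneg a
  have n3 := norm_nonneg b
  have base : (1 / 2 * ‖a + b‖) ^ 2 ≤ ((‖a‖ + ‖b‖) / 2) ^ 2 := by
    apply pow_le_pow_left₀ (by positivity); linarith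
  rcases le_or_gt ‖a - b‖ ε with h1 | h1
  · have : 0 ≤ δ ^ 2 / 64 * (ε - ‖a - b‖) := mul_nonneg (by positivity) (by linarith)
    nlinarith [sq_nonneg (‖a‖ - ‖b‖)]
  · have hγ : (1 / 2 * ‖a + b‖) ^ 2 ≤ 1 / 2 * ‖a‖ ^ 2 + 1 / 2 * ‖b‖ ^ 2 - δ ^ 2 / 16 := by
      have h3 := h (max ‖a‖ ‖b‖) (max_le ha hb) a b (le_max_left _ _) (le_max_right _ _) h1.le
      rcases le_or_gt (δ / 2) |‖a‖ - ‖b‖| with h4 | h4
      · have : (δ / 2) ^ 2 ≤ |‖a‖ - ‖b‖| ^ 2 := pow_le_pow_left₀ (by positivity) h4 2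
        rw [sq_abs] at this
        nlinarith
      · have h5 : 1 / 2 * ‖a + b‖ + δ / 4 ≤ (‖a‖ + ‖b‖) / 2 := by
          rcases le_total ‖a‖ ‖b‖ with h6 | h6
          · rw [max_eq_right h6] at h3
            have := (abs_lt.1 h4).1
            linarith
          · rw [max_eq_left h6] at h3
            have := (abs_lt.1 h4).2
            linarith
        have h7 : (1 / 2 * ‖a + b‖ + δ / 4) ^ 2 ≤ ((‖a‖ + ‖b‖) / 2) ^ 2 :=
          pow_le_pow_left₀ (by positivity) h5 2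
        nlinarith [sq_nonneg (‖a‖ - ‖b‖), mul_nonneg n1 hδ.le]
    have : δ ^ 2 / 64 * (‖a - b‖ - ε) ≤ δ ^ 2 / 64 * 4 :=
      mul_le_mul_of_nonneg_left (by linarith) (by positivity)
    linarith

/-- nonexpansive on the unit ball -/
def NE (W : X → X) : Prop :=
  ∀ x ∈ closedBall (0 : X) 1, ∀ y ∈ closedBall (0 : X) 1, ‖W x - W y‖ ≤ ‖x - y‖

lemma bruck {η : ℝ} (hη : 0 < η) : ∃ K, 0 ≤ K ∧ ∀ W : X → X, NE W →
    ∀ u ∈ closedBall (0 : X) 1, ∀ f ∈ closedBall (0 : X) 1, ∀ t : ℝ, 0 ≤ t → t ≤ 1 →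
      ‖W (t • u + (1 - t) • f) - (t • W u + (1 - t) • W f)‖ ≤
        η + K * (‖u - f‖ - ‖W u - W f‖) := by
  obtain ⟨δ, hδ, h⟩ := uc0 (X := X) hη
  refine ⟨δ⁻¹, by positivity, fun W hW u hu f hf t h0 h1 => ?_⟩
  set z := t • u + (1 - t) • f with hz
  have hzm : z ∈ closedBall (0 : X) 1 := comb_mem hu hf h0 h1
  have h1' : 0 ≤ 1 - t := by linarith
  have hd := hW u hu f hf
  have huf := norm_sub_le_two hu hf
  set a := t • (W u - W z) with ha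
  set b := (1 - t) • (W z - W f) with hb
  set r := t * (1 - t) * ‖u - f‖ with hr
  have na : ‖a‖ ≤ r := by
    have e : u - z = (1 - t) • (u - f) := by rw [hz]; module
    have := hW u hu z hzm
    rw [e, norm_smul_of_nonneg h1'] at this
    rw [ha, norm_smul_of_nonneg h0, hr, mul_assoc]
    exact mul_le_mul_of_nonneg_left this h0
  have nb : ‖b‖ ≤ r := by
    have e : z - f = t • (u - f) := by rw [hz]; module
    have := hW z hzm f hf
    rw [e, norm_smul_of_nonneg h0] at this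
    rw [hb, norm_smul_of_nonneg h1', hr, mul_comm t, mul_assoc]
    exact mul_le_mul_of_nonneg_left this h1'
  have htt : t * (1 - t) ≤ 1 / 4 := by nlinarith [sq_nonneg (t - 1 / 2)]
  have htt0 : 0 ≤ t * (1 - t) := mul_nonneg h0 h1'
  have hr2 : r ≤ 1 / 2 := by
    have : r ≤ 1 / 4 * 2 := mul_le_mul htt huf (norm_nonneg _) (by norm_num)
    linarith
  have e : W z - (t • W u + (1 - t) • W f) = -(a - b) := by rw [ha, hb]; module
  rw [e, norm_neg]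
  rcases le_or_gt η ‖a - b‖ with h2 | h2
  · have h3 := h r (by linarith) a b na nb h2
    have h4 := norm_sub_le a b
    have e2 : (t * (1 - t)) • (W u - W f) =
        (t * (1 - t)) • (a + b) + ((1 - t) ^ 2) • a + (t ^ 2) • b := by
      rw [ha, hb]; module
    have h5 : t * (1 - t) * ‖W u - W f‖ ≤
        t * (1 - t) * (2 * r - δ) + (1 - t) ^ 2 * r + t ^ 2 * r := by
      rw [← norm_smul_of_nonneg htt0, e2]
      refine norm_add₃_le.trans ?_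
      rw [norm_smul_of_nonneg htt0, norm_smul_of_nonneg (sq_nonneg _),
        norm_smul_of_nonneg (sq_nonneg _)]
      gcongr
    have hpos : 0 < t * (1 - t) := by
      rcases htt0.lt_or_eq with h6 | h6
      · exact h6
      · exfalso
        have : r = 0 := by rw [hr, ← h6, zero_mul]
        linarith
    have h7 : t * (1 - t) * ‖W u - W f‖ ≤ t * (1 - t) * (‖u - f‖ - δ) := by
      have : t * (1 - t) * (2 * r - δ) + (1 - t) ^ 2 * r + t ^ 2 * r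
          = r - t * (1 - t) * δ := by ring
      rw [this, hr] at h5
      linarith
    have h8 := le_of_mul_le_mul_left h7 hpos
    have h9 : 1 ≤ δ⁻¹ * (‖u - f‖ - ‖W u - W f‖) := by
      rw [le_inv_mul_iff₀ hδ]; linarith
    linarith
  · have : 0 ≤ δ⁻¹ * (‖u - f‖ - ‖W u - W f‖) := mul_nonneg (by positivity) (by linarith)
    linarith

lemma near_min {ε : ℝ} (hε : 0 < ε) : ∃ δ, 0 < δ ∧ ∀ d : ℝ, d ≤ 1 → ∀ K : Set X, Convex ℝ K →
    (∀ x ∈ K, d - δ ≤ ‖x‖) → ∀ a ∈ K, ∀ b ∈ K, ‖a‖ ≤ d + δ → ‖b‖ ≤ d + δ → ‖a - b‖ < ε := by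
  obtain ⟨δ, hδ, h⟩ := uc0 (X := X) hε
  refine ⟨min 1 (δ / 5), by positivity, fun d hd K hK hmin a ha b hb na nb => ?_⟩
  by_contra hc
  push Not at hc
  have m1 := min_le_left 1 (δ / 5)
  have m2 := min_le_right 1 (δ / 5)
  have h1 := h _ (by linarith) a b na nb hc
  have h2 := hmin _ (hK ha hb (by norm_num : (0 : ℝ) ≤ 1 / 2) (by norm_num : (0 : ℝ) ≤ 1 / 2)
    (by norm_num))
  rw [← smul_add, norm_smul_of_nonneg (by norm_num)] at h2
  linarith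

/-- a family of closed convex subsets of the ball, closed under intersections, has a common point -/
lemma inter_nonempty [CompleteSpace X] (𝒦 : Set (Set X)) (hne : 𝒦.Nonempty)
    (hc : ∀ K ∈ 𝒦, Convex ℝ K) (hcl : ∀ K ∈ 𝒦, IsClosed K) (hn : ∀ K ∈ 𝒦, ∃ x ∈ K, ‖x‖ ≤ 1)
    (hi : ∀ K ∈ 𝒦, ∀ L ∈ 𝒦, K ∩ L ∈ 𝒦) : ∃ p, ∀ K ∈ 𝒦, p ∈ K := by
  have hb : ∀ K ∈ 𝒦, infDist (0 : X) K ≤ 1 := by
    intro K hK
    obtain ⟨x, hx, hx1⟩ := hn K hK
    refine (infDist_le_dist_of_mem hx).trans ?_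
    rwa [dist_comm, dist_zero_right]
  have hbdd : BddAbove ((fun K => infDist (0 : X) K) '' 𝒦) := by
    refine ⟨1, ?_⟩
    rintro _ ⟨K, hK, rfl⟩
    exact hb K hK
  set d := sSup ((fun K => infDist (0 : X) K) '' 𝒦) with hd
  have hd1 : d ≤ 1 := csSup_le (hne.image _) (by rintro _ ⟨K, hK, rfl⟩; exact hb K hK)
  have hsmall : ∀ K ∈ 𝒦, ∀ e : ℝ, 0 < e → ∃ x ∈ K, ‖x‖ ≤ d + e := by
    intro K hK e he
    obtain ⟨x, hx, -⟩ := hn K hK
    have : infDist (0 : X) K < d + e :=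
      lt_of_le_of_lt (le_csSup hbdd ⟨K, hK, rfl⟩) (by linarith)
    obtain ⟨y, hy, hy'⟩ := (infDist_lt_iff ⟨x, hx⟩).1 this
    refine ⟨y, hy, ?_⟩
    rw [dist_comm, dist_zero_right] at hy'
    exact hy'.le
  have hbig : ∀ n : ℕ, ∃ K ∈ 𝒦, ∀ x ∈ K, d - 1 / ((n : ℝ) + 1) ≤ ‖x‖ := by
    intro n
    have : d - 1 / ((n : ℝ) + 1) < d := by
      have : 0 < 1 / ((n : ℝ) + 1) := by positivity
      linarith
    obtain ⟨_, ⟨K, hK, rfl⟩, h2⟩ := exists_lt_of_lt_csSup (hne.image _) this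
    refine ⟨K, hK, fun x hx => h2.le.trans ?_⟩
    refine (infDist_le_dist_of_mem hx).trans ?_
    rw [dist_comm, dist_zero_right]
  choose Kn hKn hKb using hbig
  have hx : ∀ n : ℕ, ∃ x ∈ Kn n, ‖x‖ ≤ d + 1 / ((n : ℝ) + 1) :=
    fun n => hsmall _ (hKn n) _ (by positivity)
  choose x hxK hxn using hx
  have key : ∀ ε : ℝ, 0 < ε → ∃ N : ℕ, ∀ n ≥ N, ∀ K ∈ 𝒦, ∀ m ≥ N, ∃ z ∈ K, z ∈ Kn m ∧
      ‖x n - z‖ < ε ∧ ‖x m - z‖ < ε := by
    intro ε hε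
    obtain ⟨δ, hδ, h⟩ := near_min (X := X) hε
    obtain ⟨N, hN⟩ := exists_nat_one_div_lt hδ
    refine ⟨N, fun n hn' K hK m hm => ?_⟩
    have hle : ∀ j ≥ N, 1 / ((j : ℝ) + 1) ≤ δ := by
      intro j hj
      refine le_trans ?_ hN.le
      have : (N : ℝ) ≤ j := by exact_mod_cast hj
      gcongr
    obtain ⟨z, ⟨⟨hz1, hz2⟩, hz3⟩, hz4⟩ :=
      hsmall _ (hi _ (hi _ hK _ (hKn m)) _ (hKn n)) δ hδ
    refine ⟨z, hz1, hz2, ?_, ?_⟩
    · refine h d hd1 (Kn n) (hc _ (hKn n)) (fun y hy => ?_) _ (hxK n) _ hz3 ?_ hz4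
      · have := hKb n y hy
        have := hle n hn'
        linarith
      · have := hxn n
        have := hle n hn'
        linarith
    · refine h d hd1 (Kn m) (hc _ (hKn m)) (fun y hy => ?_) _ (hxK m) _ hz2 ?_ hz4
      · have := hKb m y hy
        have := hle m hm
        linarith
      · have := hxn m
        have := hle m hm
        linarith
  have hcau : CauchySeq x := by
    rw [Metric.cauchySeq_iff]
    intro ε hε
    obtain ⟨N, hN⟩ := key (ε / 2) (half_pos hε)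
    refine ⟨N, fun m hm n hn' => ?_⟩
    obtain ⟨z, -, -, h1, h2⟩ := hN m hm _ (hKn 0) n hn'
    have := dist_triangle_right (x m) (x n) z
    rw [dist_eq_norm (x m) z, dist_eq_norm (x n) z] at this
    linarith
  obtain ⟨p, hp⟩ := cauchySeq_tendsto_of_complete hcau
  refine ⟨p, fun K hK => ?_⟩
  rw [← (hcl K hK).closure_eq, Metric.mem_closure_iff]
  intro ε hε
  obtain ⟨N, hN⟩ := key (ε / 2) (half_pos hε)
  obtain ⟨M, hM⟩ := Metric.tendsto_atTop.1 hp (ε / 2) (half_pos hε)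
  obtain ⟨z, hz, -, h1, -⟩ := hN (max N M) (le_max_left _ _) K hK N le_rfl
  refine ⟨z, hz, ?_⟩
  have h2 := hM (max N M) (le_max_right _ _)
  have := dist_triangle_left p z (x (max N M))
  rw [dist_eq_norm (x (max N M)) z] at this
  linarith

/-- weak cluster point along an ultrafilter -/
lemma exists_cluster [CompleteSpace X] (S : ℕ → X) (hS : ∀ n, S n ∈ closedBall (0 : X) 1)
    (𝒰 : Ultrafilter ℕ) : ∃ p, ∀ K : Set X, Convex ℝ K → IsClosed K →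
      (∀ᶠ n in (𝒰 : Filter ℕ), S n ∈ K) → p ∈ K := by
  obtain ⟨p, hp⟩ := inter_nonempty
    {K : Set X | Convex ℝ K ∧ IsClosed K ∧ ∀ᶠ n in (𝒰 : Filter ℕ), S n ∈ K}
    ⟨univ, convex_univ, isClosed_univ, by simp⟩ (fun K hK => hK.1) (fun K hK => hK.2.1)
    (fun K hK => by
      obtain ⟨n, hn⟩ := hK.2.2.exists
      exact ⟨S n, hn, mem_closedBall_zero_iff.1 (hS n)⟩)
    (fun K hK L hL => ⟨hK.1.inter hL.1, hK.2.1.inter hL.2.1, hK.2.2.and hL.2.2⟩)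
  exact ⟨p, fun K h1 h2 h3 => hp K ⟨h1, h2, h3⟩⟩

end Pool.Agent.H.MP_760d08_an
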