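import Mathlib
import Pool.Agent.H.MP_760d08_an.UC

set_option autoImplicit false

open Filter Topology Set Metric

namespace Pool.Agent.H.MP_760d08_an

lemma conv_of_almost_mono (a : ℕ → ℝ) (R : ℝ) (hb : ∀ n, R ≤ a n)
    (h : ∀ ε : ℝ, 0 < ε → ∀ᶠ n in atTop, ∀ m, a (n + m) ≤ a n + ε) :
    ∃ l, Tendsto a atTop (𝓝 l) := by
  apply cauchySeq_tendsto_of_complete
  rw [Metric.cauchySeq_iff']
  intro ε hε
  obtain ⟨N, hN⟩ := eventually_atTop.1 (h (ε / 3) (by positivity))
  have hbdd : BddBelow (a '' Ici N) := ⟨R, by rintro _ ⟨n, -, rfl⟩; exact hb n⟩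
  have hne : (a '' Ici N).Nonempty := ⟨a N, N, Set.mem_Ici.2 le_rfl, rfl⟩
  obtain ⟨_, ⟨M, hM, rfl⟩, h2⟩ := exists_lt_of_csInf_lt hne
    (show sInf (a '' Ici N) < sInf (a '' Ici N) + ε / 3 by linarith)
  refine ⟨M, fun n hn => ?_⟩
  obtain ⟨m, rfl⟩ := Nat.exists_eq_add_of_le hn
  have h3 := hN M hM m
  have h4 : sInf (a '' Ici N) ≤ a (M + m) :=
    csInf_le hbdd ⟨M + m, Set.mem_Ici.2 (le_trans hM (Nat.le_add_right _ _)), rfl⟩
  rw [Real.dist_eq, abs_lt]
  constructor <;> linarith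

variable {X : Type} [NormedAddCommGroup X] [NormedSpace ℝ X]

omit [NormedSpace ℝ X] in
lemma NE.iterate {U : X → X} (hm : MapsTo U (closedBall (0 : X) 1) (closedBall (0 : X) 1))
    (h : NE U) (m : ℕ) : NE U^[m] := by
  induction m with
  | zero => intro x _ y _; simp
  | succ m ih =>
    intro x hx y hy
    rw [Function.iterate_succ_apply', Function.iterate_succ_apply']
    exact (h _ (hm.iterate m hx) _ (hm.iterate m hy)).trans (ih x hx y hy)

/-- almost orbits -/
def AO (U : X → X) (u : ℕ → X) : Prop :=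
  (∀ n, u n ∈ closedBall (0 : X) 1) ∧
    ∀ ε : ℝ, 0 < ε → ∀ᶠ n in atTop, ∀ m, ‖U^[m] (u n) - u (n + m)‖ ≤ ε

omit [NormedSpace ℝ X] in
lemma AO.orbit {U : X → X} (hm : MapsTo U (closedBall (0 : X) 1) (closedBall (0 : X) 1))
    {x : X} (hx : x ∈ closedBall (0 : X) 1) (i : ℕ) : AO U (fun n => U^[n + i] x) := by
  refine ⟨fun n => hm.iterate _ hx, fun ε hε => Eventually.of_forall fun n m => ?_⟩
  have : U^[m] (U^[n + i] x) = U^[n + m + i] x := by
    rw [← Function.iterate_add_apply]; congr 1; omega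
  simp only [this, sub_self, norm_zero]
  exact hε.le

omit [NormedSpace ℝ X] in
lemma AO.dist_conv {U : X → X} (hm : MapsTo U (closedBall (0 : X) 1) (closedBall (0 : X) 1))
    (h : NE U) {u v : ℕ → X} (hu : AO U u) (hv : AO U v) :
    ∃ l, Tendsto (fun n => ‖u n - v n‖) atTop (𝓝 l) := by
  refine conv_of_almost_mono _ 0 (fun n => norm_nonneg _) fun ε hε => ?_
  filter_upwards [hu.2 (ε / 2) (half_pos hε), hv.2 (ε / 2) (half_pos hε)] with n h1 h2 m
  have h3 := NE.iterate hm h m _ (hu.1 n) _ (hv.1 n)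
  have e : u (n + m) - v (n + m) = -(U^[m] (u n) - u (n + m)) + (U^[m] (u n) - U^[m] (v n))
      + (U^[m] (v n) - v (n + m)) := by abel
  rw [e]
  refine norm_add₃_le.trans ?_
  rw [norm_neg]
  linarith [h1 m, h2 m]

lemma cauchy_shift {a : ℕ → ℝ} {l : ℝ} (h : Tendsto a atTop (𝓝 l)) {ε : ℝ} (hε : 0 < ε) :
    ∀ᶠ n in atTop, ∀ m, |a n - a (n + m)| ≤ ε := by
  obtain ⟨N, hN⟩ := Metric.tendsto_atTop.1 h (ε / 2) (half_pos hε)
  filter_upwards [eventually_ge_atTop N] with n hn m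
  have h1 := hN n hn
  have h2 := hN (n + m) (le_trans hn (Nat.le_add_right _ _))
  rw [Real.dist_eq, abs_lt] at h1 h2
  rw [abs_le]
  constructor <;> linarith [h1.1, h1.2, h2.1, h2.2]

lemma AO.comb [UniformConvexSpace X] {U : X → X}
    (hm : MapsTo U (closedBall (0 : X) 1) (closedBall (0 : X) 1))
    (h : NE U) {u v : ℕ → X} (hu : AO U u) (hv : AO U v) {t : ℝ} (h0 : 0 ≤ t) (h1 : t ≤ 1) :
    AO U (fun n => t • u n + (1 - t) • v n) := by
  refine ⟨fun n => comb_mem (hu.1 n) (hv.1 n) h0 h1, fun ε hε => ?_⟩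
  obtain ⟨K, hK, hB⟩ := bruck (X := X) (show 0 < ε / 3 by positivity)
  obtain ⟨l, hl⟩ := AO.dist_conv hm h hu hv
  set e := ε / (3 * (3 * K + 1)) with he
  have he0 : 0 < e := by positivity
  have he1 : (3 * K + 1) * e = ε / 3 := by rw [he]; field_simp
  filter_upwards [hu.2 e he0, hv.2 e he0, cauchy_shift hl he0] with n a1 a2 a3 m
  have b1 := hB _ (NE.iterate hm h m) _ (hu.1 n) _ (hv.1 n) t h0 h1
  have h1' : 0 ≤ 1 - t := by linarith
  have b2 : ‖u (n + m) - v (n + m)‖ ≤ ‖U^[m] (u n) - U^[m] (v n)‖ + 2 * e := by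
    have e : u (n + m) - v (n + m) = -(U^[m] (u n) - u (n + m)) + (U^[m] (u n) - U^[m] (v n))
        + (U^[m] (v n) - v (n + m)) := by abel
    rw [e]
    refine norm_add₃_le.trans ?_
    rw [norm_neg]
    linarith [a1 m, a2 m]
  have b3 := (abs_le.1 (a3 m)).2
  have b4 : K * (‖u n - v n‖ - ‖U^[m] (u n) - U^[m] (v n)‖) ≤ K * (3 * e) :=
    mul_le_mul_of_nonneg_left (by linarith) hK
  have e2 : U^[m] (t • u n + (1 - t) • v n) - (t • u (n + m) + (1 - t) • v (n + m)) =
      (U^[m] (t • u n + (1 - t) • v n) - (t • U^[m] (u n) + (1 - t) • U^[m] (v n))) +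
      t • (U^[m] (u n) - u (n + m)) + (1 - t) • (U^[m] (v n) - v (n + m)) := by module
  show ‖U^[m] (t • u n + (1 - t) • v n) - (t • u (n + m) + (1 - t) • v (n + m))‖ ≤ ε
  rw [e2]
  refine norm_add₃_le.trans ?_
  rw [norm_smul_of_nonneg h0, norm_smul_of_nonneg h1']
  have b5 := mul_le_mul_of_nonneg_left (a1 m) h0
  have b6 := mul_le_mul_of_nonneg_left (a2 m) h1'
  nlinarith

/-- block averages of the orbit -/
noncomputable def yy (U : X → X) (x : X) (k n : ℕ) : X :=
  ((k : ℝ) + 1)⁻¹ • ∑ i ∈ Finset.range (k + 1), U^[n + i] x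

lemma yy_ao [UniformConvexSpace X] {U : X → X}
    (hm : MapsTo U (closedBall (0 : X) 1) (closedBall (0 : X) 1))
    (h : NE U) {x : X} (hx : x ∈ closedBall (0 : X) 1) (k : ℕ) : AO U (yy U x k) := by
  induction k with
  | zero =>
    have : yy U x 0 = fun n => U^[n + 0] x := by
      funext n; simp [yy]
    rw [this]
    exact AO.orbit hm hx 0
  | succ k ih =>
    have hk : (0 : ℝ) < (k : ℝ) + 1 := by positivity
    have : yy U x (k + 1) = fun n => (((k : ℝ) + 1) / ((k : ℝ) + 2)) • yy U x k n +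
        (1 - ((k : ℝ) + 1) / ((k : ℝ) + 2)) • U^[n + (k + 1)] x := by
      funext n
      simp only [yy]
      rw [Finset.sum_range_succ _ (k + 1), smul_add, smul_smul]
      congr 2
      · push_cast; field_simp; ring
      · push_cast; field_simp; ring
    rw [this]
    refine AO.comb hm h ih (AO.orbit hm hx (k + 1)) (by positivity) ?_
    rw [div_le_one (by positivity)]; linarith

lemma yy_shift {U : X → X}
    (hm : MapsTo U (closedBall (0 : X) 1) (closedBall (0 : X) 1))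
    {x : X} (hx : x ∈ closedBall (0 : X) 1) (k n m : ℕ) :
    ‖yy U x k (n + m) - yy U x k n‖ ≤ 2 * m / ((k : ℝ) + 1) := by
  have hk : (0 : ℝ) < (k : ℝ) + 1 := by positivity
  induction m with
  | zero => simp
  | succ m ih =>
    have e : yy U x k (n + (m + 1)) - yy U x k (n + m) =
        ((k : ℝ) + 1)⁻¹ • (U^[n + m + (k + 1)] x - U^[n + m] x) := by
      simp only [yy]
      rw [← smul_sub]
      congr 1
      have h1 := Finset.sum_range_succ (fun i => U^[n + m + i] x) (k + 1)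
      have h2 := Finset.sum_range_succ' (fun i => U^[n + m + i] x) (k + 1)
      have h3 : ∀ i, n + (m + 1) + i = n + m + (i + 1) := fun i => by omega
      simp only [h3]
      simp only [Nat.add_zero] at h2
      rw [h1] at h2
      rw [sub_eq_sub_iff_add_eq_add, ← h2, add_comm]
    have b : ‖yy U x k (n + (m + 1)) - yy U x k (n + m)‖ ≤ 2 / ((k : ℝ) + 1) := by
      rw [e, norm_smul_of_nonneg (by positivity), div_eq_inv_mul]
      exact mul_le_mul_of_nonneg_left (norm_sub_le_two (hm.iterate _ hx) (hm.iterate _ hx))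
        (by positivity)
    have := norm_sub_le_norm_sub_add_norm_sub (yy U x k (n + (m + 1))) (yy U x k (n + m))
      (yy U x k n)
    have e3 : 2 * ((m + 1 : ℕ) : ℝ) / ((k : ℝ) + 1) =
        2 / ((k : ℝ) + 1) + 2 * m / ((k : ℝ) + 1) := by
      push_cast; ring
    linarith

lemma yy_avg {U : X → X}
    (hm : MapsTo U (closedBall (0 : X) 1) (closedBall (0 : X) 1))
    {x : X} (hx : x ∈ closedBall (0 : X) 1) (k N : ℕ) :
    ‖((N : ℝ) + 1)⁻¹ • ∑ n ∈ Finset.range (N + 1), yy U x k n - yy U x N 0‖ ≤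
      2 * k / ((N : ℝ) + 1) := by
  have hk : (0 : ℝ) < (k : ℝ) + 1 := by positivity
  have e : ((N : ℝ) + 1)⁻¹ • ∑ n ∈ Finset.range (N + 1), yy U x k n - yy U x N 0 =
      ((k : ℝ) + 1)⁻¹ • ∑ i ∈ Finset.range (k + 1), (yy U x N (0 + i) - yy U x N 0) := by
    rw [Finset.sum_sub_distrib, smul_sub, Finset.sum_const, Finset.card_range,
      ← Nat.cast_smul_eq_nsmul ℝ, smul_smul]
    congr 1
    · simp only [yy, Finset.smul_sum]
      rw [Finset.sum_comm]
      refine Finset.sum_congr rfl fun i _ => Finset.sum_congr rfl fun n _ => ?_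
      rw [smul_comm]
      congr 3
      omega
    · push_cast
      rw [inv_mul_cancel₀ hk.ne', one_smul]
  rw [e, norm_smul_of_nonneg (by positivity), inv_mul_le_iff₀ hk]
  refine (norm_sum_le _ _).trans ?_
  refine (Finset.sum_le_card_nsmul _ _ (2 * k / ((N : ℝ) + 1)) fun i hi => ?_).trans ?_
  · refine (yy_shift hm hx N 0 i).trans ?_
    have : (i : ℝ) ≤ k := by
      have := Finset.mem_range.1 hi
      exact_mod_cast (by omega : i ≤ k)
    gcongr
  · simp

lemma yy_approx [UniformConvexSpace X] {U : X → X}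
    (hm : MapsTo U (closedBall (0 : X) 1) (closedBall (0 : X) 1))
    (h : NE U) {x : X} (hx : x ∈ closedBall (0 : X) 1) (m : ℕ) {ε : ℝ} (hε : 0 < ε) :
    ∀ᶠ k in atTop, ∀ᶠ n in atTop, ‖U^[m] (yy U x k n) - yy U x k n‖ ≤ ε := by
  have t : Tendsto (fun k : ℕ => 2 * (m : ℝ) / ((k : ℝ) + 1)) atTop (𝓝 0) :=
    tendsto_const_nhds.div_atTop (tendsto_atTop_add_const_right _ _ tendsto_natCast_atTop_atTop)
  filter_upwards [t.eventually_le_const (half_pos hε)] with k hk
  filter_upwards [(yy_ao hm h hx k).2 _ (half_pos hε)] with n hn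
  have := norm_sub_le_norm_sub_add_norm_sub (U^[m] (yy U x k n)) (yy U x k (n + m)) (yy U x k n)
  linarith [hn m, yy_shift hm hx k n m]

end Pool.Agent.H.MP_760d08_an
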