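import Mathlib
import Pool.Agent.H.MP_760d08_an.Orbit

set_option autoImplicit false

open Filter Topology Set Metric

namespace Pool.Agent.H.MP_760d08_an

variable {X : Type} [NormedAddCommGroup X] [NormedSpace ℝ X]

/-- bounded by four on the ball -/
def Bdd (F : X → ℝ) : Prop := ∀ x ∈ closedBall (0 : X) 1, |F x| ≤ 4

/-- means concentrated on approximate fixed points -/
def IsMean (U : X → X) (E : (X → ℝ) → ℝ) : Prop :=
  ∀ (m : ℕ) (ε : ℝ), 0 < ε → ∀ F G H J : X → ℝ, Bdd F → Bdd G → Bdd H → Bdd J →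
    ∀ a b c d : ℝ, (∀ f ∈ closedBall (0 : X) 1, ‖U^[m] f - f‖ ≤ ε →
      F f ≤ a * G f + b * H f + c * J f + d) → E F ≤ a * E G + b * E H + c * E J + d

omit [NormedSpace ℝ X] in
lemma bdd_zero : Bdd (fun _ : X => (0 : ℝ)) := fun _ _ => by simp

omit [NormedSpace ℝ X] in
lemma IsMean.le2 {U : X → X} {E : (X → ℝ) → ℝ} (hE : IsMean U E) (m : ℕ) {ε : ℝ} (hε : 0 < ε)
    {F G H : X → ℝ} (hF : Bdd F) (hG : Bdd G) (hH : Bdd H) (a b d : ℝ)
    (h : ∀ f ∈ closedBall (0 : X) 1, ‖U^[m] f - f‖ ≤ ε → F f ≤ a * G f + b * H f + d) :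
    E F ≤ a * E G + b * E H + d := by
  have := hE m ε hε F G H F hF hG hH hF a b 0 d (fun f hf h1 => by linarith [h f hf h1])
  linarith

omit [NormedSpace ℝ X] in
lemma IsMean.le1 {U : X → X} {E : (X → ℝ) → ℝ} (hE : IsMean U E) (m : ℕ) {ε : ℝ} (hε : 0 < ε)
    {F G : X → ℝ} (hF : Bdd F) (hG : Bdd G) (a d : ℝ)
    (h : ∀ f ∈ closedBall (0 : X) 1, ‖U^[m] f - f‖ ≤ ε → F f ≤ a * G f + d) :
    E F ≤ a * E G + d := by
  have := hE.le2 m hε hF hG hF a 0 d (fun f hf h1 => by linarith [h f hf h1])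
  linarith

omit [NormedSpace ℝ X] in
lemma IsMean.mono {U : X → X} {E : (X → ℝ) → ℝ} (hE : IsMean U E)
    {F G : X → ℝ} (hF : Bdd F) (hG : Bdd G)
    (h : ∀ f ∈ closedBall (0 : X) 1, F f ≤ G f) : E F ≤ E G := by
  have := hE.le1 0 one_pos hF hG 1 0 (fun f hf _ => by linarith [h f hf])
  linarith

omit [NormedSpace ℝ X] in
lemma IsMean.ge_const {U : X → X} {E : (X → ℝ) → ℝ} (hE : IsMean U E) (m : ℕ) {ε : ℝ}
    (hε : 0 < ε) {G : X → ℝ} (hG : Bdd G) (a d : ℝ)
    (h : ∀ f ∈ closedBall (0 : X) 1, ‖U^[m] f - f‖ ≤ ε → d ≤ a * G f) : d ≤ a * E G := by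
  have h0 := hE.le1 0 one_pos bdd_zero bdd_zero 2 0 (fun f _ _ => by simp)
  have h1 := hE.le1 m hε bdd_zero hG a (-d) (fun f hf h1 => by linarith [h f hf h1])
  linarith

omit [NormedSpace ℝ X] in
lemma IsMean.abs_bd {U : X → X} {E : (X → ℝ) → ℝ} (hE : IsMean U E)
    {F : X → ℝ} (hF : Bdd F) : |E F| ≤ 4 := by
  have h1 := hE.ge_const 0 one_pos hF 1 (-4) (fun f hf _ => by linarith [(abs_le.1 (hF f hf)).1])
  have h2 := hE.ge_const 0 one_pos hF (-1) (-4)
    (fun f hf _ => by linarith [(abs_le.1 (hF f hf)).2])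
  rw [abs_le]
  constructor <;> linarith

omit [NormedSpace ℝ X] in
lemma isMean_dirac {U : X → X} {q : X} (hq : q ∈ closedBall (0 : X) 1) (hf : U q = q) :
    IsMean U (fun F => F q) := by
  intro m ε hε F G H J _ _ _ _ a b c d h
  refine h q hq ?_
  rw [Function.iterate_fixed hf, sub_self, norm_zero]
  exact hε.le

/-- product of means -/
def prodM (t : ℝ) (E₁ E₂ : (X → ℝ) → ℝ) (F : X → ℝ) : ℝ :=
  E₁ (fun u => E₂ (fun f => F (t • u + (1 - t) • f)))

lemma Bdd.comb {F : X → ℝ} (hF : Bdd F) {t : ℝ} (h0 : 0 ≤ t) (h1 : t ≤ 1) {u : X}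
    (hu : u ∈ closedBall (0 : X) 1) : Bdd (fun f => F (t • u + (1 - t) • f)) :=
  fun _ hf => hF _ (comb_mem hu hf h0 h1)

lemma Bdd.inner {U : X → X} {E : (X → ℝ) → ℝ} (hE : IsMean U E) {F : X → ℝ} (hF : Bdd F)
    {t : ℝ} (h0 : 0 ≤ t) (h1 : t ≤ 1) :
    Bdd (fun u => E (fun f => F (t • u + (1 - t) • f))) :=
  fun _ hu => hE.abs_bd (hF.comb h0 h1 hu)

lemma IsMean.prod [UniformConvexSpace X] {U : X → X}
    (hm : MapsTo U (closedBall (0 : X) 1) (closedBall (0 : X) 1)) (h : NE U)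
    {E₁ E₂ : (X → ℝ) → ℝ} (h₁ : IsMean U E₁) (h₂ : IsMean U E₂) {t : ℝ} (h0 : 0 ≤ t)
    (h1 : t ≤ 1) : IsMean U (prodM t E₁ E₂) := by
  intro m ε hε F G H J hF hG hH hJ a b c d hle
  obtain ⟨K, hK, hB⟩ := bruck (X := X) (half_pos hε)
  set e := ε / (2 * (2 * K + 1)) with he
  have he0 : 0 < e := by positivity
  have he1 : (2 * K + 1) * e = ε / 2 := by rw [he]; field_simp
  have h1' : 0 ≤ 1 - t := by linarith
  refine h₁ m e he0 _ _ _ _ (hF.inner h₂ h0 h1) (hG.inner h₂ h0 h1) (hH.inner h₂ h0 h1)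
    (hJ.inner h₂ h0 h1) a b c d fun u hu a1 => ?_
  refine h₂ m e he0 _ _ _ _ (hF.comb h0 h1 hu) (hG.comb h0 h1 hu) (hH.comb h0 h1 hu)
    (hJ.comb h0 h1 hu) a b c d fun f hf a2 => ?_
  refine hle _ (comb_mem hu hf h0 h1) ?_
  have b1 := hB _ (NE.iterate hm h m) _ hu _ hf t h0 h1
  have b2 : ‖u - f‖ ≤ ‖U^[m] u - U^[m] f‖ + 2 * e := by
    have e : u - f = -(U^[m] u - u) + (U^[m] u - U^[m] f) + (U^[m] f - f) := by abel
    rw [e]
    refine norm_add₃_le.trans ?_
    rw [norm_neg]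
    linarith
  have b4 : K * (‖u - f‖ - ‖U^[m] u - U^[m] f‖) ≤ K * (2 * e) :=
    mul_le_mul_of_nonneg_left (by linarith) hK
  have e2 : U^[m] (t • u + (1 - t) • f) - (t • u + (1 - t) • f) =
      (U^[m] (t • u + (1 - t) • f) - (t • U^[m] u + (1 - t) • U^[m] f)) +
      t • (U^[m] u - u) + (1 - t) • (U^[m] f - f) := by module
  rw [e2]
  refine norm_add₃_le.trans ?_
  rw [norm_smul_of_nonneg h0, norm_smul_of_nonneg h1']
  have b5 := mul_le_mul_of_nonneg_left a1 h0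
  have b6 := mul_le_mul_of_nonneg_left a2 h1'
  nlinarith

/-- bounded convex Lipschitz functions on the ball -/
def CL (H : X → ℝ) : Prop := Bdd H ∧ ConvexOn ℝ (closedBall (0 : X) 1) H ∧
  ∀ a ∈ closedBall (0 : X) 1, ∀ b ∈ closedBall (0 : X) 1, H a ≤ H b + ‖a - b‖

lemma CL.comb_right {H : X → ℝ} (hH : CL H) {t : ℝ} (h0 : 0 ≤ t) (h1 : t ≤ 1) {u : X}
    (hu : u ∈ closedBall (0 : X) 1) : CL (fun f => H (t • u + (1 - t) • f)) := by
  have h1' : 0 ≤ 1 - t := by linarith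
  refine ⟨hH.1.comb h0 h1 hu, ⟨convex_closedBall _ _, fun x hx y hy a b ha hb hab => ?_⟩,
    fun a ha b hb => ?_⟩
  · have := hH.2.1.2 (comb_mem hu hx h0 h1) (comb_mem hu hy h0 h1) ha hb hab
    have e : t • u + (1 - t) • (a • x + b • y) =
        a • (t • u + (1 - t) • x) + b • (t • u + (1 - t) • y) := by
      obtain rfl : b = 1 - a := by linarith
      module
    show H (t • u + (1 - t) • (a • x + b • y)) ≤ _
    rw [e]
    exact this
  · have := hH.2.2 _ (comb_mem hu ha h0 h1) _ (comb_mem hu hb h0 h1)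
    have e : t • u + (1 - t) • a - (t • u + (1 - t) • b) = (1 - t) • (a - b) := by module
    rw [e, norm_smul_of_nonneg h1'] at this
    have := mul_nonneg h0 (norm_nonneg (a - b))
    show H (t • u + (1 - t) • a) ≤ H (t • u + (1 - t) • b) + ‖a - b‖
    nlinarith

lemma CL.comb_left {H : X → ℝ} (hH : CL H) {t : ℝ} (h0 : 0 ≤ t) (h1 : t ≤ 1) {f : X}
    (hf : f ∈ closedBall (0 : X) 1) : CL (fun u => H (t • u + (1 - t) • f)) := by
  have := hH.comb_right (t := 1 - t) (by linarith) (by linarith) hf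
  convert this using 3 with u
  module

lemma cl_norm {p : X} (hp : p ∈ closedBall (0 : X) 1) : CL (fun v => ‖v - p‖) := by
  refine ⟨fun x hx => ?_, ⟨convex_closedBall _ _, fun x _ y _ a b ha hb hab => ?_⟩,
    fun a _ b _ => ?_⟩
  · rw [abs_norm]; linarith [norm_sub_le_two hx hp]
  · have e : a • x + b • y - p = a • (x - p) + b • (y - p) := by
      obtain rfl : b = 1 - a := by linarith
      module
    show ‖a • x + b • y - p‖ ≤ a * ‖x - p‖ + b * ‖y - p‖
    rw [e]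
    refine (norm_add_le _ _).trans ?_
    rw [norm_smul_of_nonneg ha, norm_smul_of_nonneg hb]
  · have := norm_sub_le_norm_sub_add_norm_sub a b p
    show ‖a - p‖ ≤ ‖b - p‖ + ‖a - b‖
    linarith

lemma CL.inner {U : X → X} {E : (X → ℝ) → ℝ} (hE : IsMean U E) {H : X → ℝ} (hH : CL H)
    {t : ℝ} (h0 : 0 ≤ t) (h1 : t ≤ 1) :
    CL (fun u => E (fun f => H (t • u + (1 - t) • f))) := by
  refine ⟨hH.1.inner hE h0 h1, ⟨convex_closedBall _ _, fun x hx y hy a b ha hb hab => ?_⟩,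
    fun a ha b hb => ?_⟩
  · have hxy := convex_closedBall (0 : X) 1 hx hy ha hb hab
    have := hE.le2 0 one_pos (hH.1.comb h0 h1 hxy) (hH.1.comb h0 h1 hx) (hH.1.comb h0 h1 hy)
      a b 0 (fun f hf _ => by
        have := (hH.comb_left h0 h1 hf).2.1.2 hx hy ha hb hab
        simp only [smul_eq_mul] at this
        linarith)
    simp only [smul_eq_mul]
    linarith
  · have := hE.le1 0 one_pos (hH.1.comb h0 h1 ha) (hH.1.comb h0 h1 hb) 1 ‖a - b‖
      (fun f hf _ => by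
        have := (hH.comb_left h0 h1 hf).2.2 a ha b hb
        linarith)
    linarith

/-- Jensen inequality at a point -/
def Jen (p : X) (E : (X → ℝ) → ℝ) : Prop := ∀ H : X → ℝ, CL H → H p ≤ E H

lemma Jen.prod {U : X → X} {p : X} (hp : p ∈ closedBall (0 : X) 1) {E₁ E₂ : (X → ℝ) → ℝ}
    (h₁ : IsMean U E₁) (h₂ : IsMean U E₂) (j₁ : Jen p E₁) (j₂ : Jen p E₂) {t : ℝ} (h0 : 0 ≤ t)
    (h1 : t ≤ 1) : Jen p (prodM t E₁ E₂) := by
  intro H hH
  have a1 := j₁ _ (hH.comb_left h0 h1 hp)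
  have e : t • p + (1 - t) • p = p := by module
  simp only [e] at a1
  refine a1.trans (h₁.mono (hH.comb_left h0 h1 hp).1 (hH.1.inner h₂ h0 h1) fun u hu => ?_)
  exact j₂ _ (hH.comb_right h0 h1 hu)

/-- domination by a point -/
def Dom (U : X → X) (p q : X) (E : (X → ℝ) → ℝ) : Prop :=
  ∀ E' : (X → ℝ) → ℝ, IsMean U E' → ∀ t : ℝ, 0 ≤ t → t ≤ 1 →
    E' (fun f => ‖t • q + (1 - t) • f - p‖) ≤ E (fun u => E' (fun f => ‖t • u + (1 - t) • f - p‖))

lemma Dom.prod [UniformConvexSpace X] {U : X → X}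
    (hm : MapsTo U (closedBall (0 : X) 1) (closedBall (0 : X) 1)) (h : NE U) {p q : X}
    (hq : q ∈ closedBall (0 : X) 1) (hqf : U q = q) {E : (X → ℝ) → ℝ}
    (hE : IsMean U E) (hD : Dom U p q E) : Dom U p q (prodM (1 / 2) E E) := by
  intro E' hE' t h0 h1
  have hd : 0 < 1 - t / 2 := by linarith
  set s := (t / 2) / (1 - t / 2) with hs
  have s0 : 0 ≤ s := by positivity
  have s1 : s ≤ 1 := by rw [hs, div_le_one hd]; linarith
  have e1 : (1 - t / 2) * s = t / 2 := by rw [hs, mul_div_cancel₀ _ hd.ne']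
  have e2 : (1 - t / 2) * (1 - s) = 1 - t := by rw [mul_sub, e1]; ring
  have key : ∀ a b f : X, (t / 2) • a + (1 - t / 2) • (s • b + (1 - s) • f) - p =
      (t / 2) • a + (t / 2) • b + (1 - t) • f - p := by
    intro a b f
    rw [smul_add, smul_smul, smul_smul, e1, e2, add_assoc]
  have a1 := hD _ (IsMean.prod hm h hE hE' s0 s1) (t / 2) (by linarith) (by linarith)
  have a2 := hD _ (IsMean.prod hm h (isMean_dirac hq hqf) hE' s0 s1) (t / 2) (by linarith)
    (by linarith)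
  simp only [prodM, key] at a1 a2 ⊢
  have k1 : ∀ f : X, t • q + (1 - t) • f - p = (t / 2) • q + (t / 2) • q + (1 - t) • f - p :=
    fun f => by module
  have k2 : ∀ a b f : X, t • ((1 / 2 : ℝ) • a + (1 - 1 / 2 : ℝ) • b) + (1 - t) • f - p =
      (t / 2) • a + (t / 2) • b + (1 - t) • f - p := fun a b f => by module
  have k3 : ∀ a f : X, (t / 2) • a + (t / 2) • q + (1 - t) • f - p =
      (t / 2) • q + (t / 2) • a + (1 - t) • f - p := fun a f => by module
  simp only [k1, k2]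
  refine a2.trans (le_trans (le_of_eq ?_) a1)
  simp only [k3]

/-- iterated products -/
noncomputable def iterM (M : (X → ℝ) → ℝ) : ℕ → (X → ℝ) → ℝ
  | 0 => M
  | i + 1 => prodM (1 / 2) (iterM M i) (iterM M i)

lemma iter_small [UniformConvexSpace X] {U : X → X}
    (hm : MapsTo U (closedBall (0 : X) 1) (closedBall (0 : X) 1)) (h : NE U) {p : X}
    (hp : p ∈ closedBall (0 : X) 1) {M : (X → ℝ) → ℝ} (hM : IsMean U M) (hJ : Jen p M) :
    (∀ i, IsMean U (iterM M i)) ∧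
      ∀ ε : ℝ, 0 < ε → ∃ i, iterM M i (fun v => ‖v - p‖) < 2 * ε := by
  have a : ∀ i, IsMean U (iterM M i) ∧ Jen p (iterM M i) := by
    intro i
    induction i with
    | zero => exact ⟨hM, hJ⟩
    | succ i ih =>
      exact ⟨IsMean.prod hm h ih.1 ih.1 (by norm_num) (by norm_num),
        Jen.prod hp ih.1 ih.1 ih.2 ih.2 (by norm_num) (by norm_num)⟩
  refine ⟨fun i => (a i).1, fun ε hε => ?_⟩
  by_contra hc
  push Not at hc
  obtain ⟨δ, hδ, hu⟩ := uc2 (X := X) hε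
  have b2 : Bdd (fun v : X => ‖v - p‖ ^ 2) := by
    intro v hv
    have := norm_sub_le_two hv hp
    rw [abs_of_nonneg (sq_nonneg _)]
    nlinarith [norm_nonneg (v - p)]
  have step : ∀ i, iterM M (i + 1) (fun v => ‖v - p‖ ^ 2) ≤
      iterM M i (fun v => ‖v - p‖ ^ 2) - δ * ε := by
    intro i
    have hE := (a i).1
    have hJ' := (a i).2
    have c1 := hE.le2 0 one_pos (b2.inner hE (t := 1 / 2) (by norm_num) (by norm_num)) b2
      (cl_norm hp).1 (1 / 2) (-δ) (1 / 2 * iterM M i (fun v => ‖v - p‖ ^ 2) + δ * ε)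
      (fun u hu' _ => by
        have d1 := hE.le2 0 one_pos (b2.comb (t := 1 / 2) (by norm_num) (by norm_num) hu') b2
          (cl_norm hu').1 (1 / 2) (-δ) (1 / 2 * ‖u - p‖ ^ 2 + δ * ε) (fun f hf _ => by
            have := hu (u - p) (f - p) (norm_sub_le_two hu' hp) (norm_sub_le_two hf hp)
            have e1 : (1 / 2 : ℝ) • u + (1 - 1 / 2 : ℝ) • f - p =
                (1 / 2 : ℝ) • (u - p) + (1 / 2 : ℝ) • (f - p) := by module
            have e2 : u - p - (f - p) = -(f - u) := by abel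
            rw [e2, norm_neg] at this
            show ‖(1 / 2 : ℝ) • u + (1 - 1 / 2 : ℝ) • f - p‖ ^ 2 ≤ _
            rw [e1]
            linarith)
        have d2 := hJ' _ (cl_norm hu')
        rw [norm_sub_rev] at d2
        have d3 := mul_le_mul_of_nonneg_left d2 hδ.le
        linarith)
    have c2 := mul_le_mul_of_nonneg_left (hc i) hδ.le
    show prodM (1 / 2) (iterM M i) (iterM M i) (fun v => ‖v - p‖ ^ 2) ≤ _
    unfold prodM
    linarith
  have all : ∀ i : ℕ, iterM M i (fun v => ‖v - p‖ ^ 2) ≤ 4 - i * (δ * ε) := by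
    intro i
    induction i with
    | zero => simpa using (abs_le.1 ((a 0).1.abs_bd b2)).2
    | succ i ih => push_cast; linarith [step i]
  obtain ⟨i, hi⟩ := exists_nat_gt (8 / (δ * ε))
  rw [div_lt_iff₀ (by positivity)] at hi
  linarith [all i, (abs_le.1 ((a i).1.abs_bd b2)).1]

lemma fixed_of_jen [UniformConvexSpace X] {U : X → X}
    (hm : MapsTo U (closedBall (0 : X) 1) (closedBall (0 : X) 1)) (h : NE U) {p : X}
    (hp : p ∈ closedBall (0 : X) 1) {M : (X → ℝ) → ℝ} (hM : IsMean U M) (hJ : Jen p M) :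
    U p = p := by
  obtain ⟨h1, h2⟩ := iter_small hm h hp hM hJ
  rw [← sub_eq_zero, ← norm_le_zero_iff]
  refine le_of_forall_pos_le_add fun ε hε => ?_
  obtain ⟨i, hi⟩ := h2 (ε / 5) (by positivity)
  have := (h1 i).ge_const 1 (show 0 < ε / 5 by positivity) (cl_norm hp).1 2 (‖U p - p‖ - ε / 5)
    (fun f hf hf' => by
      have e : U p - p = (U p - U f) + (U f - f) + (f - p) := by abel
      have a1 : ‖U p - p‖ ≤ ‖U p - U f‖ + ‖U f - f‖ + ‖f - p‖ := by
        rw [e]; exact norm_add₃_le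
      have a2 := h p hp f hf
      rw [norm_sub_rev p f] at a2
      simp only [Function.iterate_one] at hf'
      linarith)
  linarith

lemma eq_of_dom [UniformConvexSpace X] {U : X → X}
    (hm : MapsTo U (closedBall (0 : X) 1) (closedBall (0 : X) 1)) (h : NE U) {p q : X}
    (hp : p ∈ closedBall (0 : X) 1) (hq : q ∈ closedBall (0 : X) 1) (hqf : U q = q)
    {M : (X → ℝ) → ℝ} (hM : IsMean U M) (hJ : Jen p M) (hD : Dom U p q M) : q = p := by
  obtain ⟨h1, h2⟩ := iter_small hm h hp hM hJ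
  have hd : ∀ i, Dom U p q (iterM M i) := by
    intro i
    induction i with
    | zero => exact hD
    | succ i ih => exact Dom.prod hm h hq hqf (h1 i) ih
  rw [← sub_eq_zero, ← norm_le_zero_iff]
  refine le_of_forall_pos_le_add fun ε hε => ?_
  obtain ⟨i, hi⟩ := h2 (ε / 2) (by positivity)
  have := hd i _ (isMean_dirac hq hqf) 1 zero_le_one le_rfl
  simp only [one_smul, sub_self, zero_smul, add_zero] at this
  linarith

end Pool.Agent.H.MP_760d08_an
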