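import Mathlib
import Pool.Agent.H.MP_760d08_an.Mean

set_option autoImplicit false

open Filter Topology Set Metric

namespace Pool.Agent.H.MP_760d08_an

/-- limit along an ultrafilter -/
noncomputable def ulim (𝒰 : Ultrafilter ℕ) (a : ℕ → ℝ) : ℝ := limUnder (𝒰 : Filter ℕ) a

lemma ulim_spec (𝒰 : Ultrafilter ℕ) {a : ℕ → ℝ} (h : ∀ n, |a n| ≤ 4) :
    Tendsto a 𝒰 (𝓝 (ulim 𝒰 a)) := by
  have hc : IsCompact (Icc (-4 : ℝ) 4) := isCompact_Icc
  obtain ⟨l, -, hl⟩ := hc.ultrafilter_le_nhds (𝒰.map a) (by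
    rw [Ultrafilter.coe_map, le_principal_iff, mem_map]
    exact Eventually.of_forall fun n => abs_le.1 (h n))
  exact tendsto_nhds_limUnder ⟨l, hl⟩

lemma ulim_abs (𝒰 : Ultrafilter ℕ) {a : ℕ → ℝ} (h : ∀ n, |a n| ≤ 4) : |ulim 𝒰 a| ≤ 4 :=
  le_of_tendsto' (ulim_spec 𝒰 h).abs h

/-- Cesaro averages -/
noncomputable def ces (a : ℕ → ℝ) (N : ℕ) : ℝ := ((N : ℝ) + 1)⁻¹ * ∑ n ∈ Finset.range (N + 1), a n

lemma ces_tendsto {a : ℕ → ℝ} {l : ℝ} (h : Tendsto a atTop (𝓝 l)) :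
    Tendsto (ces a) atTop (𝓝 l) := by
  have := h.cesaro.comp (tendsto_add_atTop_nat 1)
  refine this.congr fun N => ?_
  simp [ces]

lemma ces_abs {a : ℕ → ℝ} (h : ∀ n, |a n| ≤ 4) (N : ℕ) : |ces a N| ≤ 4 := by
  have hN : (0 : ℝ) < (N : ℝ) + 1 := by positivity
  rw [ces, abs_mul, abs_of_pos (inv_pos.2 hN), inv_mul_le_iff₀ hN]
  refine (Finset.abs_sum_le_sum_abs _ _).trans ?_
  refine (Finset.sum_le_card_nsmul _ _ 4 fun i _ => h i).trans ?_
  simp

lemma ces_le {F G H J : ℕ → ℝ} (a b c d : ℝ)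
    (h : ∀ᶠ n in atTop, F n ≤ a * G n + b * H n + c * J n + d) :
    ∃ e : ℕ → ℝ, Tendsto e atTop (𝓝 0) ∧
      ∀ N, ces F N ≤ a * ces G N + b * ces H N + c * ces J N + d + e N := by
  refine ⟨ces (fun n => max (F n - (a * G n + b * H n + c * J n + d)) 0), ces_tendsto ?_,
    fun N => ?_⟩
  · refine tendsto_const_nhds.congr' ?_
    filter_upwards [h] with n hn
    exact (max_eq_right (by linarith)).symm
  · have hN : (0 : ℝ) < (N : ℝ) + 1 := by positivity
    have e : a * ces G N + b * ces H N + c * ces J N + d +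
        ces (fun n => max (F n - (a * G n + b * H n + c * J n + d)) 0) N =
        ((N : ℝ) + 1)⁻¹ * ∑ n ∈ Finset.range (N + 1), (a * G n + b * H n + c * J n + d +
          max (F n - (a * G n + b * H n + c * J n + d)) 0) := by
      simp only [ces, Finset.sum_add_distrib, ← Finset.mul_sum, Finset.sum_const,
        Finset.card_range, nsmul_eq_mul]
      push_cast
      field_simp
    rw [e, ces]
    refine mul_le_mul_of_nonneg_left (Finset.sum_le_sum fun n _ => ?_) (by positivity)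
    linarith [le_max_left (F n - (a * G n + b * H n + c * J n + d)) 0]

variable {X : Type} [NormedAddCommGroup X] [NormedSpace ℝ X]

/-- the basic mean -/
noncomputable def baseM (U : X → X) (x : X) (𝒰 : Ultrafilter ℕ) (F : X → ℝ) : ℝ :=
  ulim (hyperfilter ℕ) (fun k => ulim 𝒰 (ces fun n => F (yy U x k n)))

lemma hyper_le : ((hyperfilter ℕ : Ultrafilter ℕ) : Filter ℕ) ≤ atTop := by
  rw [← Nat.cofinite_eq_atTop]; exact hyperfilter_le_cofinite

variable [UniformConvexSpace X]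

lemma baseM_mean {U : X → X}
    (hm : MapsTo U (closedBall (0 : X) 1) (closedBall (0 : X) 1)) (h : NE U) {x : X}
    (hx : x ∈ closedBall (0 : X) 1) {𝒰 : Ultrafilter ℕ} (hU : (𝒰 : Filter ℕ) ≤ atTop) :
    IsMean U (baseM U x 𝒰) := by
  intro m ε hε F G H J hF hG hH hJ a b c d hle
  have bd : ∀ {F : X → ℝ}, Bdd F → ∀ k N, |ces (fun n => F (yy U x k n)) N| ≤ 4 :=
    fun hF k => ces_abs fun n => hF _ ((yy_ao hm h hx k).1 n)
  have t : ∀ {F : X → ℝ}, Bdd F → Tendsto (fun k => ulim 𝒰 (ces fun n => F (yy U x k n)))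
      (hyperfilter ℕ) (𝓝 (baseM U x 𝒰 F)) :=
    fun hF => ulim_spec _ fun k => ulim_abs _ (bd hF k)
  refine le_of_tendsto_of_tendsto (t hF) ((((((t hG).const_mul a).add ((t hH).const_mul b)).add
    ((t hJ).const_mul c)).add_const d)) ?_
  filter_upwards [hyper_le (yy_approx hm h hx m hε)] with k hk
  obtain ⟨e, he, hle'⟩ := ces_le (F := fun n => F (yy U x k n)) (G := fun n => G (yy U x k n))
    (H := fun n => H (yy U x k n)) (J := fun n => J (yy U x k n)) a b c d (by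
      filter_upwards [hk] with n hn
      exact hle _ ((yy_ao hm h hx k).1 n) hn)
  have := le_of_tendsto_of_tendsto' (ulim_spec 𝒰 (bd hF k))
    ((((((ulim_spec 𝒰 (bd hG k)).const_mul a).add ((ulim_spec 𝒰 (bd hH k)).const_mul b)).add
    ((ulim_spec 𝒰 (bd hJ k)).const_mul c)).add_const d).add (he.mono_left hU)) hle'
  simpa using this

/-- weak cluster point -/
def Clu (S : ℕ → X) (𝒰 : Ultrafilter ℕ) (p : X) : Prop :=
  ∀ K : Set X, Convex ℝ K → IsClosed K → (∀ᶠ n in (𝒰 : Filter ℕ), S n ∈ K) → p ∈ K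

lemma ces_jensen {U : X → X}
    (hm : MapsTo U (closedBall (0 : X) 1) (closedBall (0 : X) 1)) (h : NE U) {x : X}
    (hx : x ∈ closedBall (0 : X) 1) {𝒰 : Ultrafilter ℕ} (hU : (𝒰 : Filter ℕ) ≤ atTop) {p : X}
    (hp : Clu (fun N => yy U x N 0) 𝒰 p) {H : X → ℝ} (hH : CL H) (k : ℕ) {l : ℝ}
    (hl : Tendsto (ces fun n => H (yy U x k n)) 𝒰 (𝓝 l)) : H p ≤ l := by
  refine le_of_forall_pos_le_add fun ε hε => ?_
  have hcont : ContinuousOn H (closedBall (0 : X) 1) := by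
    refine (LipschitzOnWith.of_le_add_mul' 1 fun a ha b hb => ?_).continuousOn
    rw [dist_eq_norm, one_mul]
    exact hH.2.2 a ha b hb
  refine (hp {v ∈ closedBall (0 : X) 1 | H v ≤ l + ε} (hH.2.1.convex_le _)
    (isClosed_closedBall.isClosed_le hcont continuousOn_const) ?_).2
  have t : Tendsto (fun N : ℕ => 2 * (k : ℝ) / ((N : ℝ) + 1)) atTop (𝓝 0) :=
    tendsto_const_nhds.div_atTop (tendsto_atTop_add_const_right _ _ tendsto_natCast_atTop_atTop)
  filter_upwards [hU (t.eventually_le_const (half_pos hε)),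
    hl.eventually_le_const (show l < l + ε / 2 by linarith)] with N h1 h2
  have hN : (0 : ℝ) < (N : ℝ) + 1 := by positivity
  have hw : ∑ _n ∈ Finset.range (N + 1), ((N : ℝ) + 1)⁻¹ = 1 := by
    simp only [Finset.sum_const, Finset.card_range, nsmul_eq_mul]
    push_cast
    exact mul_inv_cancel₀ hN.ne'
  have a1 := hH.2.1.map_sum_le (t := Finset.range (N + 1)) (w := fun _ => ((N : ℝ) + 1)⁻¹)
    (p := fun n => yy U x k n) (fun _ _ => by positivity) hw
    (fun n _ => (yy_ao hm h hx k).1 n)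
  have a2 := (convex_closedBall (0 : X) 1).sum_mem (t := Finset.range (N + 1))
    (w := fun _ => ((N : ℝ) + 1)⁻¹) (z := fun n => yy U x k n) (fun _ _ => by positivity) hw
    (fun n _ => (yy_ao hm h hx k).1 n)
  rw [← Finset.smul_sum] at a1 a2
  simp only [smul_eq_mul, ← Finset.mul_sum] at a1
  have a3 := hH.2.2 _ ((yy_ao hm h hx N).1 0) _ a2
  have a4 := yy_avg hm hx k N
  rw [norm_sub_rev] at a4
  refine ⟨(yy_ao hm h hx N).1 0, ?_⟩
  simp only [ces] at h2
  have h1' : 2 * (k : ℝ) / ((N : ℝ) + 1) ≤ ε / 2 := h1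
  linarith

lemma baseM_jen {U : X → X}
    (hm : MapsTo U (closedBall (0 : X) 1) (closedBall (0 : X) 1)) (h : NE U) {x : X}
    (hx : x ∈ closedBall (0 : X) 1) {𝒰 : Ultrafilter ℕ} (hU : (𝒰 : Filter ℕ) ≤ atTop) {p : X}
    (hp : Clu (fun N => yy U x N 0) 𝒰 p) : Jen p (baseM U x 𝒰) := by
  intro H hH
  have bd : ∀ k N, |ces (fun n => H (yy U x k n)) N| ≤ 4 :=
    fun k => ces_abs fun n => hH.1 _ ((yy_ao hm h hx k).1 n)
  exact ge_of_tendsto' (ulim_spec _ fun k => ulim_abs _ (bd k)) fun k =>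
    ces_jensen hm h hx hU hp hH k (ulim_spec _ (bd k))

lemma ao_conv {U : X → X}
    (hm : MapsTo U (closedBall (0 : X) 1) (closedBall (0 : X) 1)) (h : NE U) {p : X}
    (hp : p ∈ closedBall (0 : X) 1) (hpf : U p = p) {E : (X → ℝ) → ℝ} (hE : IsMean U E)
    {t : ℝ} (h0 : 0 ≤ t) (h1 : t ≤ 1) {u : ℕ → X} (hu : AO U u) :
    ∃ l, Tendsto (fun n => E (fun f => ‖t • u n + (1 - t) • f - p‖)) atTop (𝓝 l) := by
  have h1' : 0 ≤ 1 - t := by linarith
  have cH := (cl_norm hp).inner hE h0 h1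
  have bB : ∀ {v : X}, v ∈ closedBall (0 : X) 1 → Bdd (fun f => ‖f - v‖) :=
    fun hv => (cl_norm hv).1
  have lipB : ∀ v ∈ closedBall (0 : X) 1, ∀ w ∈ closedBall (0 : X) 1,
      E (fun f => ‖f - v‖) ≤ E (fun f => ‖f - w‖) + ‖v - w‖ := by
    intro v hv w hw
    have := hE.le1 0 one_pos (bB hv) (bB hw) 1 ‖v - w‖ (fun f _ _ => by
      have := norm_sub_le_norm_sub_add_norm_sub f w v
      rw [norm_sub_rev w v] at this
      linarith)
    linarith
  have decB : ∀ m, ∀ v ∈ closedBall (0 : X) 1,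
      E (fun f => ‖f - U^[m] v‖) ≤ E (fun f => ‖f - v‖) := by
    intro m v hv
    refine le_of_forall_pos_le_add fun ε hε => ?_
    have := hE.le1 m hε (bB (hm.iterate m hv)) (bB hv) 1 ε (fun f hf hf' => by
      have a1 := norm_sub_le_norm_sub_add_norm_sub f (U^[m] f) (U^[m] v)
      have a2 := NE.iterate hm h m f hf v hv
      rw [norm_sub_rev] at hf'
      linarith)
    linarith
  obtain ⟨lB, hlB⟩ : ∃ l, Tendsto (fun n => E (fun f => ‖f - u n‖)) atTop (𝓝 l) := by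
    refine conv_of_almost_mono _ (-4) (fun n => (abs_le.1 (hE.abs_bd (bB (hu.1 n)))).1)
      fun ε hε => ?_
    filter_upwards [hu.2 ε hε] with n hn m
    have a1 := lipB _ (hu.1 (n + m)) _ (hm.iterate m (hu.1 n))
    have a2 := decB m _ (hu.1 n)
    have a3 := hn m
    rw [norm_sub_rev] at a3
    linarith
  refine conv_of_almost_mono _ (-4) (fun n => (abs_le.1 (cH.1 _ (hu.1 n))).1) fun ε hε => ?_
  obtain ⟨K, hK, hB⟩ := bruck (X := X) (half_pos hε)
  set e := ε / (2 * (3 * K + 2)) with he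
  have he0 : 0 < e := by positivity
  have he1 : (3 * K + 2) * e = ε / 2 := by rw [he]; field_simp
  filter_upwards [hu.2 e he0, cauchy_shift hlB he0] with n a1 a2 m
  have hw := hm.iterate m (hu.1 n)
  have b1 := hE m e he0 _ _ _ _ ((cl_norm hp).1.comb h0 h1 hw) ((cl_norm hp).1.comb h0 h1 (hu.1 n))
    (bB (hu.1 n)) (bB hw) 1 K (-K) (ε / 2 + (K + 1) * e) (fun f hf hf' => by
      have c1 := hB _ (NE.iterate hm h m) _ (hu.1 n) f hf t h0 h1
      have c2 := NE.iterate hm h m _ (comb_mem (hu.1 n) hf h0 h1) p hp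
      rw [Function.iterate_fixed hpf] at c2
      have c3 := norm_sub_le_norm_sub_add_norm_sub f (U^[m] f) (U^[m] (u n))
      rw [norm_sub_rev f (U^[m] f), norm_sub_rev (U^[m] f) (U^[m] (u n))] at c3
      have e2 : t • U^[m] (u n) + (1 - t) • f - p =
          -(U^[m] (t • u n + (1 - t) • f) - (t • U^[m] (u n) + (1 - t) • U^[m] f)) +
          (U^[m] (t • u n + (1 - t) • f) - p) + -((1 - t) • (U^[m] f - f)) := by module
      have c4 : ‖t • U^[m] (u n) + (1 - t) • f - p‖ ≤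
          ‖U^[m] (t • u n + (1 - t) • f) - (t • U^[m] (u n) + (1 - t) • U^[m] f)‖ +
          ‖U^[m] (t • u n + (1 - t) • f) - p‖ + (1 - t) * ‖U^[m] f - f‖ := by
        rw [e2]
        refine norm_add₃_le.trans ?_
        rw [norm_neg, norm_neg, norm_smul_of_nonneg h1']
      have c5 := mul_le_mul_of_nonneg_left hf' h1'
      have c6 := mul_nonneg h0 he0.le
      have c7 : K * (‖u n - f‖ - ‖U^[m] (u n) - U^[m] f‖) ≤
          K * (‖f - u n‖ - ‖f - U^[m] (u n)‖ + e) := by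
        refine mul_le_mul_of_nonneg_left ?_ hK
        rw [norm_sub_rev (u n) f]
        linarith
      linarith)
  have b2 := cH.2.2 _ (hu.1 (n + m)) _ hw
  have b3 := lipB _ (hu.1 (n + m)) _ hw
  have b4 := a1 m
  rw [norm_sub_rev] at b4
  have b5 := (abs_le.1 (a2 m)).2
  have b6 : K * (E (fun f => ‖f - u n‖) - E (fun f => ‖f - U^[m] (u n)‖)) ≤ K * (2 * e) :=
    mul_le_mul_of_nonneg_left (by linarith) hK
  linarith

lemma baseM_dom {U : X → X}
    (hm : MapsTo U (closedBall (0 : X) 1) (closedBall (0 : X) 1)) (h : NE U) {x : X}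
    (hx : x ∈ closedBall (0 : X) 1) {𝒰 𝒱 : Ultrafilter ℕ} (hU : (𝒰 : Filter ℕ) ≤ atTop)
    (hV : (𝒱 : Filter ℕ) ≤ atTop) {p q : X} (hp : p ∈ closedBall (0 : X) 1) (hpf : U p = p)
    (hq : Clu (fun N => yy U x N 0) 𝒱 q) : Dom U p q (baseM U x 𝒰) := by
  intro E hE t h0 h1
  have cH := (cl_norm hp).inner hE h0 h1
  have bd : ∀ k N, |ces (fun n => E (fun f => ‖t • yy U x k n + (1 - t) • f - p‖)) N| ≤ 4 :=
    fun k => ces_abs fun n => cH.1 _ ((yy_ao hm h hx k).1 n)
  refine ge_of_tendsto' (ulim_spec _ fun k => ulim_abs _ (bd k)) fun k => ?_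
  obtain ⟨l, hl⟩ := ao_conv hm h hp hpf hE h0 h1 (yy_ao hm h hx k)
  have a1 := ces_jensen hm h hx hV hq cH k ((ces_tendsto hl).mono_left hV)
  have a2 := tendsto_nhds_unique (ulim_spec _ (bd k)) ((ces_tendsto hl).mono_left hU)
  rw [a2]
  exact a1

theorem baillon [CompleteSpace X] {U : X → X}
    (hm : MapsTo U (closedBall (0 : X) 1) (closedBall (0 : X) 1)) (h : NE U) {x : X}
    (hx : x ∈ closedBall (0 : X) 1) : ∃ p ∈ closedBall (0 : X) 1, U p = p ∧
      ∀ f : X →L[ℝ] ℝ, Tendsto (fun n => f (yy U x n 0)) atTop (𝓝 (f p)) := by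
  have hS : ∀ N, yy U x N 0 ∈ closedBall (0 : X) 1 := fun N => (yy_ao hm h hx N).1 0
  have cl : ∀ 𝒰 : Ultrafilter ℕ, (𝒰 : Filter ℕ) ≤ atTop → ∃ p, Clu (fun N => yy U x N 0) 𝒰 p ∧
      p ∈ closedBall (0 : X) 1 ∧ U p = p := by
    intro 𝒰 hU
    obtain ⟨p, hp⟩ := exists_cluster (fun N => yy U x N 0) hS 𝒰
    have hpm : p ∈ closedBall (0 : X) 1 :=
      hp _ (convex_closedBall _ _) isClosed_closedBall (Eventually.of_forall hS)
    exact ⟨p, hp, hpm, fixed_of_jen hm h hpm (baseM_mean hm h hx hU) (baseM_jen hm h hx hU hp)⟩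
  obtain ⟨p, hp, hpm, hpf⟩ := cl _ hyper_le
  refine ⟨p, hpm, hpf, fun f => ?_⟩
  rw [tendsto_iff_ultrafilter]
  intro 𝒱 hV
  obtain ⟨q, hq, hqm, hqf⟩ := cl _ hV
  have e : q = p := eq_of_dom hm h hpm hqm hqf (baseM_mean hm h hx hyper_le)
    (baseM_jen hm h hx hyper_le hp) (baseM_dom hm h hx hyper_le hV hpm hpf hq)
  subst e
  rw [tendsto_order]
  constructor
  · intro a ha
    by_contra hc
    rw [← Ultrafilter.eventually_not] at hc
    have := hq {v | f v ≤ a} (convex_halfSpace_le f.toLinearMap.isLinear a)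
      (isClosed_le f.continuous continuous_const) (by
        filter_upwards [hc] with n hn
        exact not_lt.1 hn)
    exact absurd ha (not_lt.2 this)
  · intro a ha
    by_contra hc
    rw [← Ultrafilter.eventually_not] at hc
    have := hq {v | a ≤ f v} (convex_halfSpace_ge f.toLinearMap.isLinear a)
      (isClosed_le continuous_const f.continuous) (by
        filter_upwards [hc] with n hn
        exact not_lt.1 hn)
    exact absurd ha (not_lt.2 this)

end Pool.Agent.H.MP_760d08_an
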